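import Pool.Agent.H54.TZ.Ctl

set_option autoImplicit false

/-!
# Smale's ninth problem is equivalent to its restriction to banded Toeplitz matrices

The machine model (`Alg`, `run`, `exec`, `start`, `PolyControl`, `OracleFree`) is the one of the
starting result `UniformAlgorithm`: `Pool/Graph/R_seed8/H622R3/SM/Model.lean`. `DecidesOn O C α`
(`Pool/Graph/R_seed8/R533/GU/Defs.lean`): the algorithm `α` with the oracle `O` decides linear
feasibility for all real instances in the class `C` in strongly polynomial time.

`ToeplitzSystem k` (`Pool/Agent/H54/TZ/Defs.lean`): the systems `t * x ≥ z ^ i₀` (coefficientwise),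
where the unknown `x` is a real polynomial of degree less than `n` and `t` is a given real polynomial
with constant term `1`. So `A` is a banded lower triangular Toeplitz matrix, given by one sequence of
real numbers instead of `m n` of them, and `b` is a unit vector. Moreover the nonconstant
coefficients of `t` are at most `2 ^ (-n ^ k)` in absolute value, `t` has at most `n ^ (1 / k)`
terms, and the number `m` of inequalities is at most `n ^ (1 + 1 / k)`.

It is proved that, for every fixed `k`, a strongly polynomial algorithm for the class
`ToeplitzSystem k` gives a strongly polynomial algorithm for all real systems `A x ≥ b`; also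
relative to an arbitrary discrete oracle, and without oracle. The reduction is a straight-line
program without any test.
-/

namespace Pool.Agent.Results.MP_e6e621_lc.ToeplitzSystems

open Pool.Agent.H622R3.SM Pool.Agent.R533.GU Pool.Agent.H54.TZ

/-- **Equivalence of the full problem with its restriction to the class `ToeplitzSystem k`**, for
every `k` and relative to every discrete oracle `O` (1), and for algorithms which never ask the
oracle (2). The reduction (3): there are straight-line programs, computed in polynomial time from `m`
and `n` in unary, which change the store with the system `A x ≥ b` into the store with a system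
`A' x ≥ b'` in `ToeplitzSystem k` which has `N = (8 (m + 2) (n + 1)) ^ (k + 1)` unknowns and
`4 N (m + 2)` inequalities and is solvable iff `A x ≥ b` is. -/
theorem result (k : ℕ) (O : Set (List Bool)) :
    ((∃ α : Alg, PolyControl α ∧ DecidesOn O (ToeplitzSystem k) α) ↔
      ∃ α : Alg, PolyControl α ∧ DecidesOn O (fun _ _ _ _ => True) α) ∧
    ((∃ α : Alg, PolyControl α ∧ OracleFree α ∧ DecidesOn O (ToeplitzSystem k) α) ↔
      ∃ α : Alg, PolyControl α ∧ OracleFree α ∧ DecidesOn O (fun _ _ _ _ => True) α) ∧
    ∃ prog : ℕ → ℕ → List Instr,
      Computed (fun p : List Unit × List Unit => prog p.1.length p.2.length) ∧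
      ∀ (m n : ℕ) (A : Matrix (Fin m) (Fin n) ℝ) (b : Fin m → ℝ),
        ∃ (M N : ℕ) (A' : Matrix (Fin M) (Fin N) ℝ) (b' : Fin M → ℝ) (nums : List ℝ),
          N = (8 * ((m + 2) * (n + 1))) ^ (k + 1) ∧ M = 4 * N * (m + 2) ∧
          exec (prog m n) (start A b) = some (start A' b', nums) ∧
          ToeplitzSystem k M N A' b' ∧
          ((∃ z, b' ≤ A'.mulVec z) ↔ ∃ x, b ≤ A.mulVec x) := by
  refine ⟨(main_iff k O).1, (main_iff k O).2, red k, red_computed k, fun m n A b => ?_⟩
  have hN := bZ_ge k m n
  exact ⟨4 * bZ k m n * (m + 2), bZ k m n, nZ (tZ k m n) (bZ k m n) A b, vZ m n (bZ k m n),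
    vls (tZ k m n) (bZ k m n) A b, rfl, rfl, exec_prg _ _ A b hN, nZ_class k m n A b,
    nZ_iff _ _ A b hN⟩

end Pool.Agent.Results.MP_e6e621_lc.ToeplitzSystems
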